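import Pool.Agent.Lib.MP_4ca46c_ag.Div.Asm3
import Pool.Agent.Lib.MP_4ca46c_ag.Div.SgnU
import Pool.Agent.Lib.MP_4ca46c_ag.Div.Tri
import Pool.Agent.Lib.MP_4ca46c_ag.Div.TrH
import Pool.Agent.Lib.MP_4ca46c_ag.Div.Poly
import Pool.Agent.Lib.MP_4ca46c_ag.Div.Phi

/-!
# The Künneth conjecture for smooth complete intersections in `X × ℙ^r`

Let `k₀` be an algebraically closed field, for example the algebraic closure of a prime field, and
let `D` be Chow groups and a Weil cohomology theory (`CohData`, `CohData.IsTheory`, `IsStandard`,
`WeakLefschetz`) for schemes over `k₀`, for example `ℓ`-adic cohomology. Let `X` be a smooth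
projective variety of dimension `n` over an algebraically closed field containing `k₀`, and embed
`X × ℙ^r` in a projective space; let `h` be the class of a hyperplane section and `h_X` its
restriction to `X`. Consider the smooth subvarieties `Y` of codimension `c` in `X × ℙ^r`, possibly
defined over a bigger algebraically closed field, with class a multiple of `h^c`, whose complement
is the union of `c` affine open sets (`IsSection`), for instance the smooth complete intersections
of `c` hypersurface sections.

* `c = 1`. The conjecture of Künneth type holds for all `Y` if and only if it holds for `X` and the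
  map `h_X^(r+1)` on `H^a(X)` has a left inverse given by an algebraic correspondence, for
  `a ≤ n - r - 2` (for `r = 0` we assume that the conjecture holds for `X`).
* Let `c ≥ 1`, `dim Y ≥ n` and `dim Y ≥ 2n - 3`. If the conjecture of Künneth type holds for `X`,
  for instance if `X` has a Weil endomorphism (this is the case if `X` is defined over a finite
  field), then it holds for `Y`. If the sign conjecture holds for `X`, then it holds for `Y`.
-/

namespace Pool.Agent.Results.MP_4ca46c_ag.CompleteIntersections

open Pool.Agent.Lib.MP_4ca46c_ag.Sign Pool.Agent.Lib.MP_4ca46c_ag.Std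
  Pool.Agent.Lib.MP_4ca46c_ag.Div

theorem result (k₀ K : Type) [Field k₀] [IsAlgClosed k₀] [Field K] (D : CohData k₀ K)
    (h : D.IsTheory) (h' : IsStandard D) (hw : WeakLefschetz D) (X : PrVar k₀) (r : ℕ)
    (V : ProdEmb X r) :
    ((1 ≤ r ∨ X.KunnethConj D) → ((∀ Y, V.IsSection D 1 Y → Y.KunnethConj D) ↔
      X.KunnethConj D ∧ ∀ a, a + r + 2 ≤ X.n → LeftInv D X (V.hX D) (r + 1) a)) ∧
    ∀ c Y, 1 ≤ c → V.IsSection D c Y → X.n ≤ Y.n → 2 * X.n ≤ Y.n + 3 →
      (X.KunnethConj D ∨ HasWeilEndo D X → Y.KunnethConj D) ∧ (X.SignConj D → Y.SignConj D) :=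
  final_div h h' V hw tTri tTrH (tPhi tPoly tTrH) (tSgnU tTrp)

end Pool.Agent.Results.MP_4ca46c_ag.CompleteIntersections
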