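import Pool.Agent.Lib.MP_4ca46c_ag.NilGeo.MainN

/-!
# The Künneth conjecture is equivalent to the nilpotence conjecture

Let `k₀` be an algebraically closed field, for example the algebraic closure of a prime field, and
let `D` be Chow groups and a Weil cohomology theory (`CohData`, `CohData.IsTheory`, `IsStandard`)
for schemes over `k₀`, for example `ℓ`-adic cohomology. Consider smooth projective varieties `V`
over algebraically closed fields containing `k₀` (`PrVar`). The conjecture of Künneth type for all
`V` (`KunnethConj`) is equivalent to the nilpotence conjecture for all `V` (`NilConj`): every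
self-correspondence of degree `0` of `V` with rational coefficients which is numerically equivalent
to zero acts nilpotently on the cohomology of `V`. It is also equivalent to the nonexistence of
phantom motives (`NoPhantom`): a linear combination of self-correspondences of `V` with coefficients
in the coefficient field of the cohomology which is numerically equivalent to zero and acts on the
cohomology as a projector acts as zero. The same holds for the smooth projective varieties over a
fixed algebraically closed field `k` of infinite transcendence degree over `k₀`, for example over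
the complex numbers.
-/

namespace Pool.Agent.Results.MP_4ca46c_ag.Nilpotence

open Pool.Agent.Lib.MP_4ca46c_ag.Sign Pool.Agent.Lib.MP_4ca46c_ag.Std
  Pool.Agent.Lib.MP_4ca46c_ag.NilGeo

theorem result (k₀ K : Type) [Field k₀] [IsAlgClosed k₀] [Field K] (D : CohData k₀ K)
    (h : D.IsTheory) (h' : IsStandard D) :
    [∀ V : PrVar k₀, V.KunnethConj D, ∀ V : PrVar k₀, V.NilConj D,
      ∀ V : PrVar k₀, V.NoPhantom D].TFAE ∧
    ∀ (k : Type) [Field k] [Algebra k₀ k] [IsAlgClosed k],
      Cardinal.aleph0 ≤ Algebra.trdeg k₀ k →
      [∀ V : PrVar k₀, V.IsOver k → V.KunnethConj D, ∀ V : PrVar k₀, V.IsOver k → V.NilConj D,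
        ∀ V : PrVar k₀, V.IsOver k → V.NoPhantom D].TFAE :=
  ⟨nil_tfae h h', fun k _ _ _ hk => nil_over_tfae h h' k hk⟩

end Pool.Agent.Results.MP_4ca46c_ag.Nilpotence
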