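import Pool.Agent.Lib.MP_4ca46c_ag.C5.One

/-!
# The sign conjecture in transcendence degree five implies the Künneth conjecture

Let `D` be Chow groups and a Weil cohomology theory (`CohData`, `CohData.IsTheory`, `IsStandard`,
`WeakLefschetz`) for schemes over the field `k₀`, for example `ℓ`-adic cohomology. Consider smooth
projective varieties `V` over algebraically closed fields `k` containing `k₀` (`PrVar`). The sign
conjecture for `V` (`EvenPart`) says that the sum of the Künneth components `π_i` of the diagonal,
`i` even, is algebraic.

* For every `V` of dimension `n` there are `n - 1` smooth projective varieties `U_j`, of dimensions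
  `3, 5, …, 2n - 1`, over the algebraic closure of `k(s, t, u, v, w)`, such that the sign conjecture
  for the `U_j` implies that all Künneth components of `V` are algebraic, and the Lefschetz standard
  conjecture for `V`. If `k` has infinite transcendence degree over `k₀`, the base field of the
  `U_j` is isomorphic to `k`.
* For every `V` of dimension `n` there is a single smooth projective variety `U`, of odd dimension at
  most `n ^ 2 + 1`, over the algebraic closure of `k(s, t, u, v, w)` (isomorphic to `k` if `k` has
  infinite transcendence degree over `k₀`), such that the sign conjecture for `U` implies that all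
  Künneth components of `V` are algebraic, and the Lefschetz standard conjecture for `V`.
* Hence the sign conjecture for varieties of odd dimension, the Künneth conjecture and the Lefschetz
  conjecture are equivalent, each for all smooth projective varieties, or each for all smooth
  projective varieties over a fixed algebraically closed field `k` of infinite transcendence degree
  over `k₀`, for example over the complex numbers.
* Let `V` be a variety over a field of transcendence degree `r` over `k₀`, and `r + 5 ≤ m`. If the
  sign conjecture holds for all varieties of odd dimension less than `2 dim V` over fields of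
  transcendence degree `m` over `k₀`, then the Künneth and Lefschetz conjectures hold for `V`.
* Suppose that `k₀` is algebraically closed, for example the algebraic closure of a prime field.
  With the theorems on families in `HasFamilies` and `HasModels`, for every `m ≥ 5` the Künneth
  conjecture for all `V`, the Lefschetz conjecture for all `V`, the Lefschetz conjecture for the
  varieties over `k₀`, and the sign conjecture for the varieties of odd dimension over fields of
  transcendence degree `m` over `k₀` are equivalent.
-/

namespace Pool.Agent.Results.MP_4ca46c_ag.SignFiveParameters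

open Pool.Agent.Lib.MP_4ca46c_ag.Sign Pool.Agent.Lib.MP_4ca46c_ag.Std
  Pool.Agent.Lib.MP_4ca46c_ag.Vtc Pool.Agent.Lib.MP_4ca46c_ag.Od Pool.Agent.Lib.MP_4ca46c_ag.C5

theorem result (k₀ K : Type) [Field k₀] [Field K] (D : CohData k₀ K) (h : D.IsTheory)
    (h' : IsStandard D) (hW : WeakLefschetz D) :
    (∀ V : PrVar k₀, ∃ U : Fin (V.n - 1) → PrVar k₀,
      (∀ j, FiveParams V (U j) ∧ (U j).n = 2 * j + 3 ∧
        (Cardinal.aleph0 ≤ Algebra.trdeg k₀ V.k → (U j).IsOver V.k)) ∧
      ((∀ j, EvenPart D (U j)) → V.KunnethConj D ∧ V.LefschetzConj D)) ∧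
    (∀ V : PrVar k₀, ∃ U : PrVar k₀, FiveParams V U ∧ Odd U.n ∧ U.n ≤ V.n ^ 2 + 1 ∧
      (Cardinal.aleph0 ≤ Algebra.trdeg k₀ V.k → U.IsOver V.k) ∧
      (EvenPart D U → V.KunnethConj D ∧ V.LefschetzConj D)) ∧
    [∀ V : PrVar k₀, Odd V.n → EvenPart D V, ∀ V : PrVar k₀, V.KunnethConj D,
      ∀ V : PrVar k₀, V.LefschetzConj D].TFAE ∧
    (∀ (k : Type) [Field k] [Algebra k₀ k], Cardinal.aleph0 ≤ Algebra.trdeg k₀ k →
      [∀ V : PrVar k₀, V.IsOver k → Odd V.n → EvenPart D V,
        ∀ V : PrVar k₀, V.IsOver k → V.KunnethConj D,
        ∀ V : PrVar k₀, V.IsOver k → V.LefschetzConj D].TFAE) ∧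
    (∀ (V : PrVar k₀) (r m : ℕ), Algebra.trdeg k₀ V.k = r → r + 5 ≤ m →
      (∀ U : PrVar k₀, Odd U.n → U.n < 2 * V.n → Algebra.trdeg k₀ U.k = m → EvenPart D U) →
        V.KunnethConj D ∧ V.LefschetzConj D) ∧
    (IsAlgClosed k₀ → HasFamilies D → HasModels k₀ → ∀ m : ℕ, 5 ≤ m →
      [∀ V : PrVar k₀, V.KunnethConj D, ∀ V : PrVar k₀, V.LefschetzConj D,
        ∀ V : PrVar k₀, V.IsOver k₀ → V.LefschetzConj D,
        ∀ V : PrVar k₀, Odd V.n → Algebra.trdeg k₀ V.k = m → EvenPart D V].TFAE) := by
  have hF : ∀ [CharZero K], StFib5 k₀ K := fFib5 k₀ K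
  exact ⟨loc5 h h' hF tMulC hW, one5 h h' hF tMulC hW, all5 h h' hF tMulC hW,
    fun k _ _ hk => over5 h h' hF tMulC hW k hk, fin5 h h' hF tMulC hW,
    fun _ hFa hMo m hm => equiv5 h h' hF tMulC hW hFa hMo m hm⟩

end Pool.Agent.Results.MP_4ca46c_ag.SignFiveParameters
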